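import Mathlib

set_option autoImplicit false
open Filter Topology Finset

namespace Pool.Agent.H.MP_4f5d52_an

def g (l : ℕ) : ℕ := 2 ^ (Nat.log 2 (l + 1) + 3)
def n (i : ℕ) : ℕ := ∑ l ∈ range i, g l
noncomputable def D (i : ℕ) : ℝ := ∏ l ∈ range i, (n (l + 1) : ℝ) ^ g l
noncomputable def w (x : ℝ) (i : ℕ) : ℝ := x ^ n i / D i

lemma g_le (l : ℕ) : g l ≤ 8 * (l + 1) := by
  have := Nat.pow_log_le_self 2 (x := l + 1) (by omega)
  unfold g; rw [pow_add]; omega

lemma g_ge (l : ℕ) : 4 * (l + 1) ≤ g l := by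
  have := Nat.lt_pow_succ_log_self (b := 2) (by norm_num) (l + 1)
  unfold g; rw [pow_add]; rw [pow_succ] at this; omega

lemma g_mono (l : ℕ) : g l ≤ g (l + 1) := by
  unfold g
  exact Nat.pow_le_pow_right (by norm_num) (by
    have := Nat.log_mono_right (b := 2) (show l + 1 ≤ l + 1 + 1 by omega); omega)

lemma n_succ (i : ℕ) : n (i + 1) = n i + g i := by simp [n, sum_range_succ]

lemma n_le (i : ℕ) : n i ≤ 4 * i * (i + 1) := by
  induction i with
  | zero => simp [n]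
  | succ i ih => rw [n_succ]; have := g_le i; nlinarith

lemma n_ge (i : ℕ) : i * i ≤ n i := by
  induction i with
  | zero => simp
  | succ i ih => rw [n_succ]; have := g_ge i; nlinarith

lemma n_mono : StrictMono n := strictMono_nat_of_lt_succ fun i => by
  rw [n_succ]; have := g_ge i; omega

lemma n_pos (i : ℕ) : (0 : ℝ) < n (i + 1) := by
  have := n_ge (i + 1)
  have : 0 < n (i + 1) := by nlinarith
  exact_mod_cast this

lemma D_pos (i : ℕ) : 0 < D i := prod_pos fun l _ => pow_pos (n_pos l) _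

lemma D_succ (i : ℕ) : D (i + 1) = D i * (n (i + 1) : ℝ) ^ g i := by simp [D, prod_range_succ]

lemma w_succ (x : ℝ) (i : ℕ) : w x (i + 1) = w x i * (x / n (i + 1)) ^ g i := by
  have := D_pos i
  have := n_pos i
  rw [w, w, D_succ, div_pow]
  conv_lhs => rw [n_succ, pow_add, ← n_succ]
  field_simp

lemma w_nonneg {x : ℝ} (hx : 0 ≤ x) (i : ℕ) : 0 ≤ w x i := div_nonneg (pow_nonneg hx _) (D_pos i).le

lemma key (l : ℕ) : (4 : ℝ) ≤ ((n (l + 2) : ℝ) / n (l + 1)) ^ g l := by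
  have h0 := n_pos l
  have h1 : ((n (l + 2) : ℝ) / n (l + 1)) = 1 + g (l + 1) / n (l + 1) := by
    rw [n_succ (l + 1)]; push_cast; field_simp
  rw [h1]
  refine le_trans ?_ (one_add_mul_le_pow (by
    have : (0 : ℝ) ≤ g (l + 1) / n (l + 1) := by positivity
    linarith) _)
  have h2 : 3 * n (l + 1) ≤ g l * g (l + 1) := by
    have a := g_ge l
    have b := g_ge (l + 1)
    have c := n_le (l + 1)
    have := Nat.mul_le_mul a b
    nlinarith
  have h3 : (3 : ℝ) * n (l + 1) ≤ g l * g (l + 1) := by exact_mod_cast h2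
  have : (3 : ℝ) ≤ g l * (g (l + 1) / n (l + 1)) := by
    rw [← mul_div_assoc, le_div_iff₀ h0]; exact h3
  linarith

lemma up {x : ℝ} (hx : 0 ≤ x) {l : ℕ} (h : x ≤ n (l + 1)) : w x (l + 2) ≤ w x (l + 1) / 4 := by
  have h0 := n_pos l
  have h1 := n_pos (l + 1)
  have h2 : (n (l + 1) : ℝ) ≤ n (l + 2) := by exact_mod_cast n_mono.monotone (by omega)
  rw [w_succ x (l + 1), div_eq_mul_inv _ (4 : ℝ)]
  refine mul_le_mul_of_nonneg_left ?_ (w_nonneg hx _)
  calc (x / n (l + 2)) ^ g (l + 1) ≤ ((n (l + 1) : ℝ) / n (l + 2)) ^ g (l + 1) := by gcongr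
    _ ≤ ((n (l + 1) : ℝ) / n (l + 2)) ^ g l :=
      pow_le_pow_of_le_one (by positivity) ((div_le_one h1).2 h2) (g_mono l)
    _ = (((n (l + 2) : ℝ) / n (l + 1)) ^ g l)⁻¹ := by rw [← inv_pow, inv_div]
    _ ≤ 4⁻¹ := inv_anti₀ (by norm_num) (key l)

lemma down {x : ℝ} {l : ℕ} (h : (n (l + 2) : ℝ) ≤ x) : w x l ≤ w x (l + 1) / 4 := by
  have h0 := n_pos l
  have h1 := n_pos (l + 1)
  have hx : 0 ≤ x := by linarith
  have h2 : (4 : ℝ) ≤ (x / n (l + 1)) ^ g l := (key l).trans (by gcongr)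
  rw [w_succ x l]
  have := w_nonneg hx l
  nlinarith

lemma low_sum {x : ℝ} (k : ℕ) (h : (n (k + 1) : ℝ) ≤ x) : ∑ l ∈ range k, w x l ≤ w x k / 3 := by
  have hx : 0 ≤ x := (n_pos k).le.trans h
  induction k with
  | zero => simpa using div_nonneg (w_nonneg hx 0) (by norm_num : (0 : ℝ) ≤ 3)
  | succ k ih =>
    have h2 : (n (k + 1) : ℝ) ≤ n (k + 2) := by exact_mod_cast n_mono.monotone (by omega)
    have := ih (h2.trans h)
    have := down h
    rw [sum_range_succ]; linarith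

lemma up_sum {x : ℝ} (hx : 0 ≤ x) (N : ℕ) : ∀ i : ℕ, x ≤ n (i + 1) →
    ∑ s ∈ range N, w x (i + 2 + s) ≤ w x (i + 1) / 3 := by
  induction N with
  | zero => intro i _; simpa using div_nonneg (w_nonneg hx _) (by norm_num : (0 : ℝ) ≤ 3)
  | succ N ih =>
    intro i h
    have h2 : (n (i + 1) : ℝ) ≤ n (i + 2) := by exact_mod_cast n_mono.monotone (by omega)
    have a := ih (i + 1) (h.trans h2)
    have b := up hx h
    rw [sum_range_succ']
    have e : ∀ s, i + 2 + (s + 1) = i + 1 + 2 + s := fun s => by omega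
    simp only [e, add_zero]
    linarith

noncomputable def t (z : ℂ) (l : ℕ) : ℂ := z ^ n l / (D l : ℂ)

lemma norm_t (z : ℂ) (l : ℕ) : ‖t z l‖ = w ‖z‖ l := by
  simp [t, w, abs_of_pos (D_pos l)]

lemma t_succ (z : ℂ) (l : ℕ) : t z (l + 1) = t z l * z ^ g l * (((n (l + 1) : ℝ) ^ g l)⁻¹ : ℝ) := by
  have h1 : (D l : ℂ) ≠ 0 := by exact_mod_cast (D_pos l).ne'
  have h2 : ((n (l + 1) : ℝ) : ℂ) ≠ 0 := by exact_mod_cast (n_pos l).ne'
  rw [t, t, D_succ]
  conv_lhs => rw [n_succ, pow_add, ← n_succ]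
  push_cast at h2 ⊢
  field_simp

lemma re_adj (z : ℂ) (l : ℕ) (h : 0 ≤ (z ^ g l).re) :
    0 ≤ (t z (l + 1) * (starRingEnd ℂ) (t z l)).re := by
  have : t z (l + 1) * (starRingEnd ℂ) (t z l) =
      ((Complex.normSq (t z l) * ((n (l + 1) : ℝ) ^ g l)⁻¹ : ℝ) : ℂ) * z ^ g l := by
    rw [t_succ, Complex.ofReal_mul, ← Complex.mul_conj]; ring
  rw [this, Complex.re_ofReal_mul]
  have := n_pos l
  have := Complex.normSq_nonneg (t z l)
  positivity

lemma re_ge (z : ℂ) (l i : ℕ) :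
    -(w ‖z‖ l * w ‖z‖ i) ≤ (t z l * (starRingEnd ℂ) (t z i)).re := by
  have := Complex.abs_re_le_norm (t z l * (starRingEnd ℂ) (t z i))
  rw [norm_mul, Complex.norm_conj, norm_t, norm_t] at this
  exact (abs_le.1 this).1

lemma nz (z : ℂ) (I J : ℕ) (hJ : J + 1 ≤ I) (hx : (n (J + 1) : ℝ) ≤ ‖z‖)
    (hz : ∀ l, J ≤ l → l < I → 0 ≤ (z ^ g l).re) : ∑ l ∈ range (I + 1), t z l ≠ 0 := by
  classical
  set x := ‖z‖ with hxd
  have hx0 : 0 < x := (n_pos J).trans_le hx
  obtain ⟨i, hi1, hi2, hi3, hi4⟩ : ∃ i, J ≤ i ∧ i + 1 ≤ I ∧ (n (i + 1) : ℝ) ≤ x ∧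
      (i + 1 < I → x ≤ n (i + 2)) := by
    set k := Nat.findGreatest (fun i => (n i : ℝ) ≤ x) I with hk
    have a : J + 1 ≤ k := Nat.le_findGreatest hJ hx
    have b : (n k : ℝ) ≤ x := Nat.findGreatest_spec (P := fun i => (n i : ℝ) ≤ x) hJ hx
    have c : k ≤ I := Nat.findGreatest_le I
    obtain ⟨i, hi⟩ : ∃ i, k = i + 1 := ⟨k - 1, by omega⟩
    refine ⟨i, by omega, by omega, hi ▸ b, fun h => ?_⟩
    have := Nat.findGreatest_is_greatest (P := fun i => (n i : ℝ) ≤ x) (n := I) (k := i + 2)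
      (by omega) (by omega)
    exact (not_le.1 this).le
  intro h0
  have h1 : ∑ l ∈ range (I + 1), (t z l * (starRingEnd ℂ) (t z (i + 1))).re = 0 := by
    rw [← Complex.re_sum, ← sum_mul, h0]; simp
  set W := w x (i + 1) with hW
  have hWp : 0 < W := div_pos (pow_pos hx0 _) (D_pos _)
  obtain ⟨N, hN⟩ : ∃ N, I + 1 = (i + 2) + N := ⟨I + 1 - (i + 2), by omega⟩
  rw [hN, sum_range_add, sum_range_succ, sum_range_succ] at h1
  have e1 : (t z (i + 1) * (starRingEnd ℂ) (t z (i + 1))).re = W * W := by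
    rw [Complex.mul_conj, Complex.ofReal_re, Complex.normSq_eq_norm_sq, norm_t]; ring
  have e2 : 0 ≤ (t z i * (starRingEnd ℂ) (t z (i + 1))).re := by
    have := re_adj z i (hz i hi1 (by omega))
    rw [← Complex.conj_re] at this
    simpa [mul_comm] using this
  have e3 : -(W / 3 * W) ≤ ∑ l ∈ range i, (t z l * (starRingEnd ℂ) (t z (i + 1))).re := by
    have a := low_sum i hi3
    have b : w x i ≤ W := by
      rw [hW, w_succ]
      exact le_mul_of_one_le_right (w_nonneg hx0.le _) (one_le_pow₀ ((one_le_div (n_pos i)).2 hi3))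
    calc -(W / 3 * W) ≤ -((∑ l ∈ range i, w x l) * W) := by
          have : ∑ l ∈ range i, w x l ≤ W / 3 := by linarith
          nlinarith
      _ = ∑ l ∈ range i, -(w x l * W) := by rw [sum_neg_distrib, sum_mul]
      _ ≤ _ := sum_le_sum fun l _ => re_ge z l (i + 1)
  have e4 : -(W / 3 * W) ≤
      ∑ s ∈ range N, (t z (i + 2 + s) * (starRingEnd ℂ) (t z (i + 1))).re := by
    rcases N with _ | N
    · simp; positivity
    have hlt : i + 1 < I := by omega
    have hx2 := hi4 hlt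
    rw [sum_range_succ']
    have a := re_adj z (i + 1) (hz _ (by omega) hlt)
    have b := up_sum hx0.le N (i + 1) hx2
    have c : w x (i + 2) ≤ W := by
      rw [hW, w_succ x (i + 1)]
      exact mul_le_of_le_one_right hWp.le
        (pow_le_one₀ (div_nonneg hx0.le (n_pos _).le) ((div_le_one (n_pos _)).2 hx2))
    have d : -(W / 3 * W) ≤
        ∑ s ∈ range N, (t z (i + 2 + (s + 1)) * (starRingEnd ℂ) (t z (i + 1))).re := by
      calc -(W / 3 * W) ≤ -((∑ s ∈ range N, w x (i + 1 + 2 + s)) * W) := by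
            have : ∑ s ∈ range N, w x (i + 1 + 2 + s) ≤ W / 3 := by linarith
            nlinarith
        _ = ∑ s ∈ range N, -(w x (i + 2 + (s + 1)) * W) := by
            rw [sum_neg_distrib, sum_mul]
            congr 1
            exact sum_congr rfl fun s _ => by rw [show i + 1 + 2 + s = i + 2 + (s + 1) by omega]
        _ ≤ _ := sum_le_sum fun l _ => re_ge z _ (i + 1)
    simp only [add_zero]
    linarith
  nlinarith [mul_pos hWp hWp]

end Pool.Agent.H.MP_4f5d52_an
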