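import Pool.Agent.H.MP_4f5d52_an.A

set_option autoImplicit false
open Filter Topology Finset

namespace Pool.Agent.H.MP_4f5d52_an

noncomputable def a : ℕ → ℝ := Function.extend n (fun i => (D i)⁻¹) 0

lemma a_n (i : ℕ) : a (n i) = (D i)⁻¹ := n_mono.injective.extend_apply _ _ i

lemma a_not {k : ℕ} (h : ¬ ∃ i, n i = k) : a k = 0 := by
  rw [a, Function.extend_apply' _ _ _ h]; rfl

lemma fact_le (i : ℕ) : ((n i).factorial : ℝ) ≤ D i := by
  induction i with
  | zero => simp [n, D]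
  | succ i ih =>
    rw [D_succ]
    have h : (n (i + 1)).factorial ≤ (n i).factorial * n (i + 1) ^ g i := by
      rw [n_succ]
      generalize g i = k
      induction k with
      | zero => simp
      | succ k ihk =>
        rw [← add_assoc, Nat.factorial_succ, pow_succ]
        have : (n i + k) ^ k ≤ (n i + k + 1) ^ k := Nat.pow_le_pow_left (by omega) _
        calc (n i + k + 1) * (n i + k).factorial
            ≤ (n i + k + 1) * ((n i).factorial * (n i + k + 1) ^ k) :=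
              Nat.mul_le_mul_left _ (ihk.trans (Nat.mul_le_mul_left _ this))
          _ = _ := by ring
    calc ((n (i + 1)).factorial : ℝ) ≤ (n i).factorial * (n (i + 1) : ℝ) ^ g i := by
          exact_mod_cast h
      _ ≤ _ := by gcongr

lemma a_nonneg (k : ℕ) : 0 ≤ a k := by
  by_cases h : ∃ i, n i = k
  · obtain ⟨i, rfl⟩ := h
    rw [a_n]; exact inv_nonneg.2 (D_pos i).le
  · rw [a_not h]

lemma a_le (k : ℕ) : a k ≤ (k.factorial : ℝ)⁻¹ := by
  by_cases h : ∃ i, n i = k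
  · obtain ⟨i, rfl⟩ := h
    rw [a_n]; exact inv_anti₀ (by positivity) (fact_le i)
  · rw [a_not h]; positivity

lemma a_term {x : ℝ} (hx : 0 ≤ x) (k : ℕ) : a k * x ^ k ≤ x ^ k / k.factorial := by
  rw [div_eq_mul_inv, mul_comm]
  exact mul_le_mul_of_nonneg_left (a_le k) (by positivity)

lemma a_sum {x : ℝ} (hx : 0 ≤ x) : Summable fun k => a k * x ^ k :=
  Summable.of_nonneg_of_le (fun k => mul_nonneg (a_nonneg k) (by positivity)) (a_term hx)
    (Real.summable_pow_div_factorial x)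

noncomputable def p : FormalMultilinearSeries ℂ ℂ ℂ :=
  FormalMultilinearSeries.ofScalars ℂ fun k => (a k : ℂ)

lemma p_rad : p.radius = ⊤ := by
  refine FormalMultilinearSeries.radius_eq_top_of_summable_norm _ fun r => ?_
  refine (a_sum r.2).congr fun k => ?_
  rw [p, FormalMultilinearSeries.ofScalars_norm]
  simp [abs_of_nonneg (a_nonneg k)]

noncomputable def F : ℂ → ℂ := p.sum

lemma F_pow : HasFPowerSeriesOnBall F p 0 ⊤ := by
  have := p.hasFPowerSeriesOnBall (by rw [p_rad]; simp)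
  rwa [p_rad] at this

lemma F_diff : Differentiable ℂ F := fun z =>
  (F_pow.analyticAt_of_mem (by simp)).differentiableAt

lemma F_sum (z : ℂ) : HasSum (fun k => (a k : ℂ) * z ^ k) (F z) := by
  have := F_pow.hasSum (y := z) (by simp)
  simpa [p, FormalMultilinearSeries.ofScalars_apply_eq, mul_comm] using this

lemma F_co (k : ℕ) : iteratedDeriv k F 0 / (k.factorial : ℂ) = a k := by
  have := F_pow.factorial_smul (1 : ℂ) k
  rw [iteratedDeriv, ← this, p, FormalMultilinearSeries.ofScalars_apply_eq]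
  have : (k.factorial : ℂ) ≠ 0 := by exact_mod_cast k.factorial_ne_zero
  simp only [one_pow, smul_eq_mul, mul_one, nsmul_eq_mul]
  field_simp

lemma F_up (z : ℂ) : ‖F z‖ ≤ Real.exp ‖z‖ := by
  have h := NormedSpace.expSeries_div_hasSum_exp (𝔸 := ℝ) ‖z‖
  rw [← Real.exp_eq_exp_ℝ] at h
  refine (F_sum z).norm_le_of_bounded h fun k => ?_
  simpa [abs_of_nonneg (a_nonneg k)] using a_term (norm_nonneg z) k

lemma D_le (i : ℕ) : D i ≤ (n i : ℝ) ^ n i := by
  calc D i ≤ ∏ l ∈ range i, (n i : ℝ) ^ g l := by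
        refine prod_le_prod (fun l _ => by positivity) fun l hl => ?_
        have : (n (l + 1) : ℝ) ≤ n i := by
          exact_mod_cast n_mono.monotone (mem_range.1 hl)
        gcongr
    _ = _ := by rw [prod_pow_eq_pow_sum]; rfl

lemma F_low (i : ℕ) (hi : 2 ≤ i) :
    Real.exp (‖((3 * n i : ℝ) : ℂ)‖ ^ (1 / 2 : ℝ)) < ‖F ((3 * n i : ℝ) : ℂ)‖ := by
  have h4 : (4 : ℝ) ≤ n i := by
    have := n_ge i
    have : 4 ≤ n i := by nlinarith
    exact_mod_cast this
  set x : ℝ := 3 * n i with hx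
  have hx0 : 0 ≤ x := by positivity
  have h1 : HasSum (fun k => a k * x ^ k) (F x).re := by
    have := Complex.hasSum_re (F_sum x)
    refine this.congr_fun ?_ |>.congr_fun fun _ => rfl
    intro k
    rw [← Complex.ofReal_pow, ← Complex.ofReal_mul, Complex.ofReal_re]
  have h2 : a (n i) * x ^ n i ≤ (F x).re :=
    le_hasSum h1 _ fun k _ => mul_nonneg (a_nonneg k) (by positivity)
  have h3 : (3 : ℝ) ^ n i ≤ a (n i) * x ^ n i := by
    rw [a_n, hx, mul_pow, inv_mul_eq_div, le_div_iff₀ (D_pos i)]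
    exact mul_le_mul_of_nonneg_left (D_le i) (by positivity)
  have h5 : Real.exp (n i) < 3 ^ n i := by
    rw [← mul_one (n i : ℝ), Real.exp_nat_mul]
    refine pow_lt_pow_left₀ ?_ (Real.exp_pos 1).le (by
      rintro h; rw [h] at h4; norm_num at h4)
    exact Real.exp_one_lt_d9.trans (by norm_num)
  have h6 : ‖(x : ℂ)‖ ^ (1 / 2 : ℝ) ≤ n i := by
    rw [Complex.norm_real, Real.norm_of_nonneg hx0, ← Real.sqrt_eq_rpow]
    rw [Real.sqrt_le_left (by positivity)]
    nlinarith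
  calc _ ≤ Real.exp (n i) := Real.exp_le_exp.2 h6
    _ < _ := h5
    _ ≤ _ := h3.trans (h2.trans (Complex.re_le_norm _))

lemma norm_top : Tendsto (fun z : ℂ => ‖z‖) (cocompact ℂ) atTop := by
  rw [← Metric.cobounded_eq_cocompact]; exact tendsto_norm_cobounded_atTop

lemma F_freq : ∃ᶠ z in cocompact ℂ, Real.exp (‖z‖ ^ (1 / 2 : ℝ)) < ‖F z‖ := by
  have h : Tendsto (fun i => ((3 * n i : ℝ) : ℂ)) atTop (cocompact ℂ) := by
    rw [← Metric.cobounded_eq_cocompact, ← tendsto_norm_atTop_iff_cobounded]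
    have h1 : Tendsto (fun i => (n i : ℝ)) atTop atTop :=
      tendsto_natCast_atTop_atTop.comp n_mono.tendsto_atTop
    refine tendsto_atTop_mono (fun i => ?_) h1
    rw [Complex.norm_real, Real.norm_of_nonneg (by positivity)]
    have : (0 : ℝ) ≤ n i := by positivity
    linarith
  exact h.frequently ((eventually_ge_atTop 2).mono F_low).frequently

lemma order : ∃ lam : ℝ, 0 < lam ∧
    (∀ ε : ℝ, 0 < ε → ∀ᶠ z in cocompact ℂ, ‖F z‖ ≤ Real.exp (‖z‖ ^ (lam + ε))) ∧
    (∀ ε : ℝ, 0 < ε → ∃ᶠ z in cocompact ℂ, Real.exp (‖z‖ ^ (lam - ε)) ≤ ‖F z‖) := by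
  set S : Set ℝ := {s | ∀ᶠ z in cocompact ℂ, ‖F z‖ ≤ Real.exp (‖z‖ ^ s)} with hS
  have hup : ∀ s ∈ S, ∀ u, s ≤ u → u ∈ S := by
    intro s hs u hu
    filter_upwards [hs, norm_top.eventually_ge_atTop 1] with z h1 h2
    exact h1.trans (Real.exp_le_exp.2 (Real.rpow_le_rpow_of_exponent_le h2 hu))
  have h1 : (1 : ℝ) ∈ S := Eventually.of_forall fun z => by simpa using F_up z
  have hl : ∀ s ∈ S, (1 / 2 : ℝ) ≤ s := by
    intro s hs
    by_contra h
    obtain ⟨z, h1, h2⟩ := (F_freq.and_eventually (hup s hs _ (not_le.1 h).le)).exists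
    exact absurd h2 (not_le.2 h1)
  have hb : BddBelow S := ⟨_, hl⟩
  refine ⟨sInf S, lt_of_lt_of_le (by norm_num) (le_csInf ⟨1, h1⟩ hl), fun ε hε => ?_,
    fun ε hε => ?_⟩
  · obtain ⟨s, hs, h⟩ := exists_lt_of_csInf_lt ⟨1, h1⟩ (show sInf S < sInf S + ε by linarith)
    exact hup s hs _ h.le
  · have : sInf S - ε ∉ S := fun h => by linarith [csInf_le hb h]
    exact (not_eventually.1 this).mono fun z hz => (not_le.1 hz).le

lemma part (z : ℂ) (m I : ℕ) (h : ∀ i, n i ≤ m ↔ i ≤ I) :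
    ∑ k ∈ range (m + 1), (a k : ℂ) * z ^ k = ∑ l ∈ range (I + 1), t z l := by
  symm
  refine sum_of_injOn n (n_mono.injective.injOn) (fun i hi => ?_) (fun k hk hk' => ?_)
    fun i _ => ?_
  · simp only [coe_range, Set.mem_Iio] at hi ⊢
    have := (h i).2 (by omega); omega
  · rw [a_not]
    · simp
    · rintro ⟨i, rfl⟩
      refine hk' ⟨i, ?_, rfl⟩
      simp only [coe_range, Set.mem_Iio, mem_range] at hk ⊢
      have := (h i).1 (by omega); omega
  · rw [a_n, t]; push_cast; ring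

lemma re_pow (u : ℂ) (k : ℕ) (h : k * ‖u‖ ≤ 1 / 2) : 0 ≤ ((1 + u) ^ k).re := by
  have h1 := (range k).norm_prod_one_add_sub_one_le fun _ => u
  simp only [prod_const, card_range, sum_const, nsmul_eq_mul] at h1
  have h2 : Real.exp (k * ‖u‖) ≤ 2 := by
    refine (Real.exp_le_exp.2 h).trans ?_
    have : Real.exp (1 / 2) ^ 2 ≤ 2 ^ 2 := by
      rw [← Real.exp_nat_mul]
      norm_num
      exact Real.exp_one_lt_d9.le.trans (by norm_num)
    exact (pow_le_pow_iff_left₀ (Real.exp_pos _).le (by norm_num) (by norm_num)).1 this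
  have h3 := (abs_le.1 (Complex.abs_re_le_norm ((1 + u) ^ k - 1))).1
  simp only [Complex.sub_re, Complex.one_re] at h3
  linarith

lemma free (j m : ℕ) (ω z : ℂ) (ρ : ℝ) (hω : ω ^ 2 ^ j = 1) (hω1 : ‖ω‖ = 1)
    (hm : 16 ^ 4 ≤ m) (hm2 : n (2 ^ j + 1) ≤ m) (hρ : 2 * (n (2 ^ j + 1) : ℝ) ≤ ρ)
    (hz : ‖z - ρ * ω‖ ≤ ρ * (m : ℝ) ^ (-1 + 1 / 4 : ℝ)) :
    ∑ k ∈ range (m + 1), (a k : ℂ) * z ^ k ≠ 0 := by
  classical
  have hρ0 : 0 < ρ := by linarith [n_pos (2 ^ j)]
  have hm0 : (16 : ℝ) ^ 4 ≤ m := by exact_mod_cast hm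
  set I := Nat.findGreatest (fun i => n i ≤ m) m with hI
  have hI1 : ∀ i, n i ≤ m ↔ i ≤ I := by
    intro i
    constructor
    · intro h
      exact Nat.le_findGreatest (n_mono.le_apply.trans h) h
    · intro h
      have : n I ≤ m := Nat.findGreatest_spec (P := fun i => n i ≤ m) (Nat.zero_le m) (by simp [n])
      exact (n_mono.monotone h).trans this
  set y : ℝ := (m : ℝ) ^ (1 / 4 : ℝ) with hy
  have hy4 : y ^ 4 = m := by
    rw [hy, ← Real.rpow_natCast, ← Real.rpow_mul (by positivity)]; norm_num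
  have hy0 : 0 ≤ y := by positivity
  have hy16 : 16 ≤ y := by
    rw [← hy4] at hm0
    exact (pow_le_pow_iff_left₀ (by norm_num) hy0 (by norm_num)).1 hm0
  have hd : (m : ℝ) ^ (-1 + 1 / 4 : ℝ) = (y ^ 3)⁻¹ := by
    rw [Real.rpow_add (by linarith), Real.rpow_neg_one, ← hy, ← hy4]
    field_simp
  rw [hd] at hz
  have hω0 : ω ≠ 0 := by rintro rfl; simp at hω1
  have hρc : (ρ : ℂ) ≠ 0 := by exact_mod_cast hρ0.ne'
  set u : ℂ := (z - ρ * ω) / (ρ * ω) with hu
  have hzu : z = ρ * ω * (1 + u) := by rw [hu]; field_simp; ring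
  have hun : ‖u‖ ≤ (y ^ 3)⁻¹ := by
    rw [hu, norm_div, norm_mul, hω1, Complex.norm_real, Real.norm_of_nonneg hρ0.le, mul_one,
      div_le_iff₀ hρ0]
    linarith
  have hIy : (I : ℝ) ≤ y ^ 2 := by
    have h1 : I * I ≤ m := (n_ge I).trans ((hI1 I).2 le_rfl)
    have h2 : (I : ℝ) ^ 2 ≤ (y ^ 2) ^ 2 := by
      have : (I : ℝ) * I ≤ m := by exact_mod_cast h1
      rw [← hy4] at this; nlinarith
    exact (pow_le_pow_iff_left₀ (by positivity) (by positivity) (by norm_num)).1 h2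
  have hy3 : 0 < y ^ 3 := by positivity
  rw [part z m I hI1]
  refine nz z I (2 ^ j) ((hI1 _).1 hm2) ?_ fun l hl hl' => ?_
  · have h1 : ‖u‖ ≤ 1 / 2 := hun.trans (by
      rw [one_div]; exact inv_anti₀ (by norm_num) (by nlinarith [mul_le_mul hy16 hy16 (by norm_num) hy0]))
    have h2 : 1 / 2 ≤ ‖1 + u‖ := by
      have := norm_sub_norm_le (1 : ℂ) (-u)
      simp only [norm_one, norm_neg, sub_neg_eq_add] at this
      linarith
    rw [hzu, norm_mul, norm_mul, hω1, Complex.norm_real, Real.norm_of_nonneg hρ0.le]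
    nlinarith
  · have h1 : ω ^ g l = 1 := by
      have : j ≤ Nat.log 2 (l + 1) + 3 := by
        have := Nat.le_log_of_pow_le (b := 2) (by norm_num) (show 2 ^ j ≤ l + 1 by omega)
        omega
      obtain ⟨c, hc⟩ := pow_dvd_pow 2 this
      rw [g, hc, pow_mul, hω, one_pow]
    rw [hzu, mul_pow, mul_pow, h1, mul_one, ← Complex.ofReal_pow, Complex.re_ofReal_mul]
    refine mul_nonneg (by positivity) (re_pow u _ ?_)
    have h2 : (g l : ℝ) ≤ 8 * y ^ 2 := by
      have : g l ≤ 8 * I := (g_le l).trans (by omega)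
      have : (g l : ℝ) ≤ 8 * I := by exact_mod_cast this
      linarith
    calc (g l : ℝ) * ‖u‖ ≤ 8 * y ^ 2 * (y ^ 3)⁻¹ := by gcongr
      _ = 8 / y := by field_simp
      _ ≤ 1 / 2 := by rw [div_le_iff₀ (by linarith)]; linarith

end Pool.Agent.H.MP_4f5d52_an
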